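import Pool.Agent.H27.G.R_seed8.H306R2.RZ.Defs2
import Pool.Agent.H27.G.R_seed8.H66R2.RZ_P4

set_option autoImplicit false

/-! Project RZ, task C1: Gauss sums of the characters `(8d|.)`. -/

namespace Pool.Agent.H60R2.RZC1

open Finset Filter Topology MeasureTheory
open Pool.Agent.H306R2.RZ
open Pool.Agent.H987R2.RZ (P2 P3 sum_crt Cs Sn Gk_eq Sn_zero Cs_zero js_sq_one)
open Pool.Agent.H66R2.RZP4 (Gk_one Gk_add P4a)

noncomputable section

lemma Gk_prime (p : ℕ) (hp : p.Prime) (hp2 : p ≠ 2) (k : ℤ) :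
    Gk k p = js k p * Real.sqrt p := by
  have hodd : Odd p := hp.odd_of_ne_two hp2
  have : NeZero p := ⟨hp.ne_zero⟩
  by_cases hk : (p : ℤ) ∣ k
  · obtain ⟨t, rfl⟩ := hk
    have h1 : Gk ((p : ℤ) * t) p = Gk 0 p := by
      have := Gk_add 0 t p
      rwa [zero_add] at this
    rw [h1, P4a p hodd, if_neg hp.prime.not_isSquare]
    have h2 : js ((p : ℤ) * t) p = 0 := by
      unfold js
      have : jacobiSym ((p : ℤ) * t) p = 0 := by
        rw [jacobiSym.eq_zero_iff_not_coprime]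
        intro h
        have h3 : (p : ℤ) ∣ Int.gcd ((p : ℤ) * t) p :=
          Int.dvd_coe_gcd (Dvd.intro t rfl) (dvd_refl _)
        rw [h] at h3
        have h4 : p ∣ 1 := by exact_mod_cast h3
        exact hp.one_lt.ne' (Nat.dvd_one.1 h4)
      rw [this]
      simp
    rw [h2, zero_mul]
  · have h := P3 p hp hp2 0 1 le_rfl k hk
    simp only [pow_zero, one_mul, pow_one] at h
    rw [h]
    simp

lemma Gk_sqf (d : ℕ) : Odd d → Squarefree d → ∀ k : ℤ, Gk k d = js k d * Real.sqrt d := by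
  induction d using Nat.strong_induction_on with
  | _ d ih =>
    intro hd hs k
    by_cases h1 : d = 1
    · subst h1
      rw [Gk_one]
      simp [js]
    · set p := d.minFac with hp
      have hpp : p.Prime := Nat.minFac_prime h1
      obtain ⟨m, hm⟩ := Nat.minFac_dvd d
      rw [← hp] at hm
      have hodd : Odd (p * m) := hm ▸ hd
      obtain ⟨hpo, hmo⟩ := Nat.odd_mul.1 hodd
      have hs' : Squarefree (p * m) := hm ▸ hs
      have hcop : p.Coprime m := Nat.coprime_of_squarefree_mul hs'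
      have hsm : Squarefree m := hs'.of_mul_right
      have hm0 : 0 < m := hmo.pos
      have hlt : m < d := by
        rw [hm]
        have := hpp.two_le
        nlinarith
      have hp2 : p ≠ 2 := by
        intro h
        rw [h] at hpo
        exact (by decide : ¬ Odd 2) hpo
      have : NeZero p := ⟨hpp.ne_zero⟩
      have : NeZero m := ⟨hm0.ne'⟩
      rw [hm, P2 k p m hpo hmo hcop, Gk_prime p hpp hp2, ih m hlt hmo hsm]
      unfold js
      rw [jacobiSym.mul_right]
      push_cast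
      rw [Real.sqrt_mul (by positivity)]
      ring

/-- the factor modulo 8 -/
def E (d a : ℕ) : ℝ :=
  if d % 4 = 1 then ((ZMod.χ₈ (a : ZMod 8) : ℤ) : ℝ) else ((ZMod.χ₈' (a : ZMod 8) : ℤ) : ℝ)

lemma E_mul (d a b : ℕ) : E d (a * b) = E d a * E d b := by
  unfold E
  split_ifs <;> push_cast <;> rw [map_mul] <;> push_cast <;> rfl

lemma E_add (d a b : ℕ) : E d (a + b * 8) = E d a := by
  unfold E
  have h : ((a + b * 8 : ℕ) : ZMod 8) = (a : ZMod 8) := by
    push_cast
    have : (8 : ZMod 8) = 0 := by decide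
    rw [this, mul_zero, add_zero]
  rw [h]

lemma E_mod (d a : ℕ) : E d a = E d (a % 8) := by
  conv_lhs => rw [← Nat.mod_add_div a 8, mul_comm 8]
  rw [E_add]

lemma E_even (d a : ℕ) (ha : a % 2 = 0) : E d a = 0 := by
  unfold E
  rw [ZMod.χ₈_nat_eq_if_mod_eight, ZMod.χ₈'_nat_eq_if_mod_eight]
  simp [ha]

/-- the character as a product -/
lemma js_eq (d : ℕ) (hd : Odd d) (a : ℕ) (ha : a ≠ 0) :
    js (8 * (d : ℤ)) a = E d a * js (a : ℤ) d := by
  have : NeZero a := ⟨ha⟩
  rcases Nat.even_or_odd a with he | ho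
  · rw [E_even d a (Nat.even_iff.1 he), zero_mul]
    unfold js
    have : jacobiSym (8 * (d : ℤ)) a = 0 := by
      rw [jacobiSym.eq_zero_iff_not_coprime]
      intro h
      have h2 : (2 : ℤ) ∣ Int.gcd (8 * (d : ℤ)) a := by
        apply Int.dvd_coe_gcd
        · exact ⟨4 * d, by ring⟩
        · exact_mod_cast he.two_dvd
      rw [h] at h2
      norm_num at h2
    rw [this]
    simp
  · have h8 : jacobiSym (8 * (d : ℤ)) a = jacobiSym 2 a * jacobiSym (d : ℤ) a := by
      rw [show (8 * (d : ℤ)) = 2 * (2 * (2 * (d : ℤ))) by ring, jacobiSym.mul_left,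
        jacobiSym.mul_left, jacobiSym.mul_left]
      have h2 : jacobiSym 2 a ^ 2 = 1 := by
        apply jacobiSym.sq_one
        have := Nat.Coprime.symm (Nat.coprime_two_right.2 ho)
        exact_mod_cast this
      rw [← mul_assoc, ← sq, h2, one_mul]
    unfold js E
    rw [h8, jacobiSym.at_two ho, ZMod.χ₈_nat_eq_if_mod_eight, ZMod.χ₈'_nat_eq_if_mod_eight]
    have ha2 : ¬ a % 2 = 0 := by
      have := Nat.odd_iff.1 ho
      omega
    rcases Nat.odd_mod_four_iff.1 (Nat.odd_iff.1 hd) with hd4 | hd4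
    · rw [jacobiSym.quadratic_reciprocity_one_mod_four hd4 ho, if_pos hd4]
      push_cast
      rfl
    · rw [if_neg (by omega : ¬ d % 4 = 1)]
      rcases Nat.odd_mod_four_iff.1 (Nat.odd_iff.1 ho) with ha4 | ha4
      · rw [← jacobiSym.quadratic_reciprocity_one_mod_four ha4 hd]
        have h1 : a % 8 = 1 ∨ a % 8 = 5 := by omega
        rcases h1 with h1 | h1 <;> simp [ha2, h1]
      · rw [jacobiSym.quadratic_reciprocity_three_mod_four hd4 ha4]
        have h1 : a % 8 = 3 ∨ a % 8 = 7 := by omega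
        rcases h1 with h1 | h1 <;> simp [ha2, h1]

/-- values of the cosine at multiples of `π/4` -/
def tc (m : ℕ) : ℝ :=
  if m = 0 then 1 else if m = 1 then Real.sqrt 2 / 2 else if m = 2 then 0 else
    if m = 3 then -(Real.sqrt 2 / 2) else if m = 4 then -1 else
      if m = 5 then -(Real.sqrt 2 / 2) else if m = 6 then 0 else Real.sqrt 2 / 2

/-- values of the sine at multiples of `π/4` -/
def ts (m : ℕ) : ℝ :=
  if m = 0 then 0 else if m = 1 then Real.sqrt 2 / 2 else if m = 2 then 1 else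
    if m = 3 then Real.sqrt 2 / 2 else if m = 4 then 0 else
      if m = 5 then -(Real.sqrt 2 / 2) else if m = 6 then -1 else -(Real.sqrt 2 / 2)

lemma cs_eighth (m : ℕ) : Real.cos (2 * Real.pi * m / 8) = tc (m % 8) ∧
    Real.sin (2 * Real.pi * m / 8) = ts (m % 8) := by
  have h1 : 2 * Real.pi * (m : ℝ) / 8 = ((m % 8 : ℕ) : ℝ) * (Real.pi / 4) +
      ((m / 8 : ℕ) : ℝ) * (2 * Real.pi) := by
    have h2 : (m : ℝ) = ((m % 8 : ℕ) : ℝ) + 8 * ((m / 8 : ℕ) : ℝ) := by
      exact_mod_cast (Nat.mod_add_div m 8).symm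
    rw [h2]
    ring
  rw [h1, Real.cos_add_nat_mul_two_pi, Real.sin_add_nat_mul_two_pi]
  have hlt : m % 8 < 8 := Nat.mod_lt _ (by norm_num)
  generalize m % 8 = r at hlt
  have h4c := Real.cos_pi_div_four
  have h4s := Real.sin_pi_div_four
  have e3 : (3:ℝ) * (Real.pi / 4) = Real.pi - Real.pi / 4 := by ring
  have e5 : (5:ℝ) * (Real.pi / 4) = Real.pi / 4 + Real.pi := by ring
  have e6 : (6:ℝ) * (Real.pi / 4) = Real.pi / 2 + Real.pi := by ring
  have e7 : (7:ℝ) * (Real.pi / 4) = -(Real.pi / 4) + 2 * Real.pi := by ring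
  have e2 : (2:ℝ) * (Real.pi / 4) = Real.pi / 2 := by ring
  have e4 : (4:ℝ) * (Real.pi / 4) = Real.pi := by ring
  interval_cases r
  · simp [tc, ts]
  · simp [tc, ts, h4c, h4s]
  · push_cast
    rw [e2]
    simp [tc, ts]
  · push_cast
    rw [e3, Real.cos_pi_sub, Real.sin_pi_sub]
    simp [tc, ts, h4c, h4s]
  · push_cast
    rw [e4]
    simp [tc, ts]
  · push_cast
    rw [e5, Real.cos_add_pi, Real.sin_add_pi]
    simp [tc, ts, h4c, h4s]
  · push_cast
    rw [e6, Real.cos_add_pi, Real.sin_add_pi]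
    simp [tc, ts]
  · push_cast
    rw [e7, Real.cos_add_two_pi, Real.sin_add_two_pi, Real.cos_neg, Real.sin_neg]
    simp [tc, ts, h4c, h4s]

/-- Gauss sums modulo 8 -/
lemma gauss8 (d n : ℕ) :
    (∑ a ∈ range 8, E d a * Real.cos (2 * Real.pi * (a * n : ℕ) / 8) =
      if d % 4 = 1 then 2 * Real.sqrt 2 * E d n else 0) ∧
    (∑ a ∈ range 8, E d a * Real.sin (2 * Real.pi * (a * n : ℕ) / 8) =
      if d % 4 = 1 then 0 else 2 * Real.sqrt 2 * E d n) := by
  have h1 : ∀ a, Real.cos (2 * Real.pi * (a * n : ℕ) / 8) = tc (a * (n % 8) % 8) ∧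
      Real.sin (2 * Real.pi * (a * n : ℕ) / 8) = ts (a * (n % 8) % 8) := by
    intro a
    have := cs_eighth (a * n)
    rw [Nat.mul_mod a n, Nat.mul_mod a (n % 8), Nat.mod_mod] at *
    exact this
  simp only [(h1 _).1, (h1 _).2]
  rw [E_mod d n]
  have hlt : n % 8 < 8 := Nat.mod_lt _ (by norm_num)
  generalize n % 8 = r at hlt
  unfold E
  simp only [ZMod.χ₈_nat_eq_if_mod_eight, ZMod.χ₈'_nat_eq_if_mod_eight, Finset.sum_range_succ,
    Finset.sum_range_zero]
  by_cases hd : d % 4 = 1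
  · simp only [if_pos hd]
    interval_cases r <;> norm_num [tc, ts] <;> ring
  · simp only [if_neg hd]
    interval_cases r <;> norm_num [tc, ts] <;> ring

/-- sums over a period -/
lemma sum_period (d : ℕ) (hd : Odd d) (n : ℕ) (g : ℝ → ℝ)
    (hg : ∀ t : ℝ, ∀ z : ℕ, g (t + z * (2 * Real.pi)) = g t) :
    ∑ a ∈ Icc 1 (8 * d), js (8 * (d : ℤ)) a * g (2 * Real.pi * a * n / (8 * d)) =
      ∑ a ∈ range 8, ∑ b ∈ range d, (E d (a * d + b * 8) * js ((a * d + b * 8 : ℕ) : ℤ) d) *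
        g (2 * Real.pi * ((a * d + b * 8 : ℕ) : ℝ) * n / (8 * d)) := by
  have hd0 : 0 < d := hd.pos
  have hdR : (d : ℝ) ≠ 0 := by positivity
  set f : ℕ → ℝ := fun r => (E d r * js (r : ℤ) d) * g (2 * Real.pi * (r : ℝ) * n / (8 * d)) with hf
  have hE0 : E d 0 = 0 := E_even d 0 rfl
  have hE8 : E d (8 * d) = 0 := E_even d (8 * d) (by omega)
  have h1 : ∑ a ∈ Icc 1 (8 * d), js (8 * (d : ℤ)) a * g (2 * Real.pi * a * n / (8 * d)) =
      ∑ a ∈ Icc 1 (8 * d), f a := by
    refine Finset.sum_congr rfl fun a ha => ?_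
    simp only [hf]
    rw [js_eq d hd a (by have := (mem_Icc.1 ha).1; omega)]
  have h2 : ∑ a ∈ Icc 1 (8 * d), f a = ∑ a ∈ range (8 * d), f a := by
    have e1 : ∑ a ∈ range (8 * d + 1), f a = f 0 + ∑ a ∈ Ico 1 (8 * d + 1), f a :=
      Finset.sum_range_eq_add_Ico f (by omega)
    have e2 : ∑ a ∈ range (8 * d + 1), f a = ∑ a ∈ range (8 * d), f a + f (8 * d) :=
      Finset.sum_range_succ f _
    have e3 : f 0 = 0 := by simp only [hf, hE0, zero_mul]
    have e4 : f (8 * d) = 0 := by simp only [hf, hE8, zero_mul]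
    have e5 : Icc 1 (8 * d) = Ico 1 (8 * d + 1) := by
      ext x
      simp only [mem_Icc, mem_Ico]
      omega
    rw [e5]
    linarith
  have h3 : ∀ r, f (r % (8 * d)) = f r := by
    intro r
    simp only [hf]
    have hr : r = r % (8 * d) + (8 * d) * (r / (8 * d)) := (Nat.mod_add_div r (8 * d)).symm
    have e1 : E d (r % (8 * d)) = E d r := by
      conv_rhs => rw [hr, show (8 * d) * (r / (8 * d)) = (d * (r / (8 * d))) * 8 by ring]
      rw [E_add]
    have e2 : js ((r % (8 * d) : ℕ) : ℤ) d = js (r : ℤ) d := by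
      unfold js
      rw [jacobiSym.mod_left, jacobiSym.mod_left (r : ℤ)]
      congr 2
      rw [Int.natCast_mod]
      push_cast
      exact Int.emod_emod_of_dvd _ (Dvd.intro_left 8 rfl)
    have e3 : 2 * Real.pi * (r : ℝ) * n / (8 * d) =
        2 * Real.pi * ((r % (8 * d) : ℕ) : ℝ) * n / (8 * d) +
          ((r / (8 * d) * n : ℕ) : ℝ) * (2 * Real.pi) := by
      have : (r : ℝ) = ((r % (8 * d) : ℕ) : ℝ) + 8 * d * ((r / (8 * d) : ℕ) : ℝ) := by
        exact_mod_cast hr
      conv_lhs => rw [this]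
      push_cast
      field_simp
    rw [e1, e2, e3, hg]
  rw [h1, h2, sum_crt 8 d (by norm_num) hd0 ?_ f h3]
  exact (Nat.Coprime.pow_left 3 (Nat.coprime_two_left.2 hd))

theorem C1 (d : ℕ) (hd : Odd d) (hs : Squarefree d) (n : ℕ) (hn : n ≠ 0) :
    (∑ a ∈ Icc 1 (8 * d), js (8 * (d : ℤ)) a * Real.cos (2 * Real.pi * a * n / (8 * d)) =
      Real.sqrt (8 * d) * js (8 * (d : ℤ)) n) ∧
    (∑ a ∈ Icc 1 (8 * d), js (8 * (d : ℤ)) a * Real.sin (2 * Real.pi * a * n / (8 * d)) = 0) ∧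
    (∀ m : ℕ, m ≠ 0 → js (8 * (d : ℤ)) (m + 8 * d) = js (8 * (d : ℤ)) m) ∧
    (∀ m : ℕ, m ≠ 0 → m < 8 * d → js (8 * (d : ℤ)) (8 * d - m) = js (8 * (d : ℤ)) m) := by
  have hd0 : 0 < d := hd.pos
  have hdR : (d : ℝ) ≠ 0 := by positivity
  have hne : NeZero d := ⟨hd0.ne'⟩
  set Ac : ℝ := ∑ a ∈ range 8, E d a * Real.cos (2 * Real.pi * (a * n : ℕ) / 8) with hAc
  set As : ℝ := ∑ a ∈ range 8, E d a * Real.sin (2 * Real.pi * (a * n : ℕ) / 8) with hAs
  have hG := gauss8 d n
  rw [← hAc, ← hAs] at hG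
  have hfac : ∀ a b : ℕ, E d (a * d + b * 8) * js ((a * d + b * 8 : ℕ) : ℤ) d =
      (E d d * js 8 d) * (E d a * js (b : ℤ) d) := by
    intro a b
    rw [E_add, E_mul]
    have : js ((a * d + b * 8 : ℕ) : ℤ) d = js (b : ℤ) d * js 8 d := by
      unfold js
      have g1 : jacobiSym ((a * d + b * 8 : ℕ) : ℤ) d = jacobiSym ((b : ℤ) * 8) d := by
        rw [jacobiSym.mod_left, jacobiSym.mod_left ((b : ℤ) * 8)]
        congr 1
        push_cast
        simp [Int.add_emod]
      rw [g1, jacobiSym.mul_left]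
      push_cast
      rfl
    rw [this]
    ring
  have hang : ∀ a b : ℕ, 2 * Real.pi * ((a * d + b * 8 : ℕ) : ℝ) * n / (8 * d) =
      2 * Real.pi * (a * n : ℕ) / 8 + 2 * Real.pi * ((n : ℤ) : ℝ) * (b : ℝ) / (d : ℝ) := by
    intro a b
    push_cast
    field_simp
  have hC : ∑ a ∈ Icc 1 (8 * d), js (8 * (d : ℤ)) a * Real.cos (2 * Real.pi * a * n / (8 * d)) =
      (E d d * js 8 d) * (Ac * Cs n d - As * Sn n d) := by
    rw [sum_period d hd n Real.cos (fun t z => Real.cos_add_nat_mul_two_pi t z)]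
    simp only [hfac, hang, Real.cos_add]
    rw [hAc, hAs]
    unfold Cs Sn
    rw [Finset.sum_mul_sum, Finset.sum_mul_sum, ← Finset.sum_sub_distrib, Finset.mul_sum]
    refine Finset.sum_congr rfl fun a _ => ?_
    rw [← Finset.sum_sub_distrib, Finset.mul_sum]
    refine Finset.sum_congr rfl fun b _ => ?_
    ring
  have hS : ∑ a ∈ Icc 1 (8 * d), js (8 * (d : ℤ)) a * Real.sin (2 * Real.pi * a * n / (8 * d)) =
      (E d d * js 8 d) * (As * Cs n d + Ac * Sn n d) := by
    rw [sum_period d hd n Real.sin (fun t z => Real.sin_add_nat_mul_two_pi t z)]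
    simp only [hfac, hang, Real.sin_add]
    rw [hAc, hAs]
    unfold Cs Sn
    rw [Finset.sum_mul_sum, Finset.sum_mul_sum, ← Finset.sum_add_distrib, Finset.mul_sum]
    refine Finset.sum_congr rfl fun a _ => ?_
    rw [← Finset.sum_add_distrib, Finset.mul_sum]
    refine Finset.sum_congr rfl fun b _ => ?_
    ring
  have h8 : js 8 d = ((ZMod.χ₈ (d : ZMod 8) : ℤ) : ℝ) := by
    unfold js
    have e1 : jacobiSym 8 d = jacobiSym 2 d := by
      rw [show (8 : ℤ) = 2 * (2 * 2) by norm_num, jacobiSym.mul_left, jacobiSym.mul_left]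
      have h2 : jacobiSym 2 d ^ 2 = 1 := by
        apply jacobiSym.sq_one
        have := Nat.Coprime.symm (Nat.coprime_two_right.2 hd)
        exact_mod_cast this
      rw [← sq, h2, mul_one]
    rw [e1, jacobiSym.at_two hd]
  have hGk : Gk n d = js n d * Real.sqrt d := Gk_sqf d hd hs n
  have hsq : Real.sqrt (8 * d) = 2 * Real.sqrt 2 * Real.sqrt d := by
    rw [show (8 * (d : ℝ)) = 2 ^ 2 * (2 * d) by ring, Real.sqrt_mul (by positivity),
      Real.sqrt_sq (by norm_num), Real.sqrt_mul (by norm_num)]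
    ring
  have hdm : ¬ d % 2 = 0 := by
    have := Nat.odd_iff.1 hd
    omega
  have hjn := js_eq d hd n hn
  refine ⟨?_, ?_, ?_, ?_⟩
  · rw [hC, hjn, hsq]
    rcases Nat.odd_mod_four_iff.1 (Nat.odd_iff.1 hd) with hd4 | hd4
    · rw [if_pos hd4, if_pos hd4] at hG
      have hc : Cs n d = js n d * Real.sqrt d := by
        rw [← hGk, Gk_eq, Sn_zero n d hd4, add_zero]
      have hsgn : E d d * js 8 d = 1 := by
        rw [h8]
        unfold E
        rw [if_pos hd4, ZMod.χ₈_nat_eq_if_mod_eight]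
        have : d % 8 = 1 ∨ d % 8 = 5 := by omega
        rcases this with h | h <;> simp [hdm, h]
      rw [hsgn, hG.1, hG.2, hc]
      push_cast
      ring
    · have hd4' : ¬ d % 4 = 1 := by omega
      rw [if_neg hd4', if_neg hd4'] at hG
      have hc : Sn n d = js n d * Real.sqrt d := by
        rw [← hGk, Gk_eq, Cs_zero n d hd4, zero_add]
      have hsgn : E d d * js 8 d = -1 := by
        rw [h8]
        unfold E
        rw [if_neg hd4', ZMod.χ₈_nat_eq_if_mod_eight, ZMod.χ₈'_nat_eq_if_mod_eight]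
        have : d % 8 = 3 ∨ d % 8 = 7 := by omega
        rcases this with h | h <;> simp [hdm, h]
      rw [hsgn, hG.1, hG.2, hc]
      push_cast
      ring
  · rw [hS]
    rcases Nat.odd_mod_four_iff.1 (Nat.odd_iff.1 hd) with hd4 | hd4
    · rw [if_pos hd4, if_pos hd4] at hG
      rw [hG.2, Sn_zero n d hd4]
      ring
    · have hd4' : ¬ d % 4 = 1 := by omega
      rw [if_neg hd4', if_neg hd4'] at hG
      rw [hG.1, Cs_zero n d hd4]
      ring
  · intro m hm
    rw [js_eq d hd _ (by omega), js_eq d hd m hm, show m + 8 * d = m + d * 8 by ring, E_add]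
    congr 1
    unfold js
    rw [jacobiSym.mod_left, jacobiSym.mod_left (m : ℤ)]
    congr 2
    push_cast
    rw [show (m : ℤ) + d * 8 = m + 8 * d by ring, Int.add_mul_emod_self_right]
  · intro m hm hmd
    rw [js_eq d hd _ (by omega), js_eq d hd m hm]
    have e1 : js ((8 * d - m : ℕ) : ℤ) d = ((ZMod.χ₄ (d : ZMod 4) : ℤ) : ℝ) * js (m : ℤ) d := by
      unfold js
      have : jacobiSym ((8 * d - m : ℕ) : ℤ) d = jacobiSym (-(m : ℤ)) d := by
        rw [jacobiSym.mod_left, jacobiSym.mod_left (-(m : ℤ))]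
        congr 1
        rw [Nat.cast_sub hmd.le]
        push_cast
        rw [sub_eq_add_neg, add_comm, Int.add_mul_emod_self_right]
      rw [this, jacobiSym.neg _ hd]
      push_cast
      rfl
    have e2 : E d (8 * d - m) = ((ZMod.χ₄ (d : ZMod 4) : ℤ) : ℝ) * E d m := by
      rw [E_mod d m, E_mod d (8 * d - m)]
      have hr : (8 * d - m) % 8 = (8 - m % 8) % 8 := by omega
      rw [hr]
      have hlt : m % 8 < 8 := Nat.mod_lt _ (by norm_num)
      generalize m % 8 = r at hlt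
      unfold E
      rcases Nat.odd_mod_four_iff.1 (Nat.odd_iff.1 hd) with hd4 | hd4
      · rw [if_pos hd4, if_pos hd4, ZMod.χ₄_nat_one_mod_four hd4,
          ZMod.χ₈_nat_eq_if_mod_eight, ZMod.χ₈_nat_eq_if_mod_eight]
        interval_cases r <;> simp
      · have hd4' : ¬ d % 4 = 1 := by omega
        rw [if_neg hd4', if_neg hd4', ZMod.χ₄_nat_three_mod_four hd4,
          ZMod.χ₈'_nat_eq_if_mod_eight, ZMod.χ₈'_nat_eq_if_mod_eight]
        interval_cases r <;> simp
    have e3 : ((ZMod.χ₄ (d : ZMod 4) : ℤ) : ℝ) * ((ZMod.χ₄ (d : ZMod 4) : ℤ) : ℝ) = 1 := by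
      rcases Nat.odd_mod_four_iff.1 (Nat.odd_iff.1 hd) with hd4 | hd4
      · rw [ZMod.χ₄_nat_one_mod_four hd4]
        simp
      · rw [ZMod.χ₄_nat_three_mod_four hd4]
        simp
    rw [e1, e2]
    calc ((ZMod.χ₄ (d : ZMod 4) : ℤ) : ℝ) * E d m *
          (((ZMod.χ₄ (d : ZMod 4) : ℤ) : ℝ) * js (m : ℤ) d)
        = (((ZMod.χ₄ (d : ZMod 4) : ℤ) : ℝ) * ((ZMod.χ₄ (d : ZMod 4) : ℤ) : ℝ)) *
          (E d m * js (m : ℤ) d) := by ring
      _ = E d m * js (m : ℤ) d := by rw [e3, one_mul]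

end

end Pool.Agent.H60R2.RZC1
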